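import Pool.Agent.P8H10.ET.StmA

/-!
# Project ET: closure lemmas for algebraic numbers of bounded size
-/

set_option autoImplicit false
set_option linter.all false

open Finset Pool.Agent.R347.LW

namespace Pool.Agent.P8H59.ET

open Pool.Agent.P8H10.ET

theorem RB_mono {d d' N N' : ℕ} {a : ℂ} (h : RB d N a) (hd : d ≤ d') (hN : N ≤ N') : RB d' N' a := by
  obtain ⟨P, h1, h2, h3, h4⟩ := h
  exact ⟨P, h1, h2.trans hd, fun n => (h3 n).trans (by exact_mod_cast hN), h4⟩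

theorem exists_RB {a : ℂ} (ha : IsAlgebraic ℚ a) : ∃ m : ℕ, RB m m a := by
  obtain ⟨P, hP0, hP⟩ := (IsFractionRing.isAlgebraic_iff ℤ ℚ ℂ).2 ha
  refine ⟨P.natDegree + ∑ i ∈ range (P.natDegree + 1), (P.coeff i).natAbs, P, hP0,
    Nat.le_add_right _ _, fun n => ?_, hP⟩
  by_cases hn : n ≤ P.natDegree
  · have h1 : (P.coeff n).natAbs ≤ ∑ i ∈ range (P.natDegree + 1), (P.coeff i).natAbs :=
      Finset.single_le_sum (f := fun i => (P.coeff i).natAbs) (fun _ _ => Nat.zero_le _)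
        (mem_range.2 (by omega))
    rw [← Int.natCast_natAbs]
    exact_mod_cast h1.trans (Nat.le_add_left _ _)
  · rw [Polynomial.coeff_eq_zero_of_natDegree_lt (by omega), abs_zero]
    positivity

theorem le_tow' (c Y : ℕ) : c ≤ tow c Y := (Nat.le_add_left c Y).trans (le_tow c Y)

theorem RB_const {M : ℕ} {a : ℂ} (H : RB M M a) (Y : ℕ) : RB (tow M Y) (tow M Y) a :=
  RB_mono H (le_tow' M Y) (le_tow' M Y)

theorem RB_up {h h' Y : ℕ} {a : ℂ} (H : RB (tow h Y) (tow h Y) a) (hh : h ≤ h') :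
    RB (tow h' Y) (tow h' Y) a :=
  RB_mono H (tow_mono_left hh Y) (tow_mono_left hh Y)

theorem sz_sum {n : ℕ} {κ : Type} [Fintype κ] (b : κ → ℤ) (e : κ → (Fin n →₀ ℕ)) {N : ℕ}
    (h3 : ∀ k, ((e k).sum fun _ x => x) ≤ N) (h4 : ∑ k, |b k| ≤ (N : ℤ)) :
    Sz N (∑ k, MvPolynomial.monomial (e k) (b k)) := by
  classical
  constructor
  · refine (MvPolynomial.totalDegree_finset_sum _ _).trans (Finset.sup_le fun k _ => ?_)
    exact (MvPolynomial.totalDegree_monomial_le _ _).trans (h3 k)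
  · refine le_trans ?_ h4
    set P : MvPolynomial (Fin n) ℤ := ∑ k, MvPolynomial.monomial (e k) (b k) with hP
    have h5 : ∀ d ∈ P.support, |P.coeff d| ≤ ∑ k, if e k = d then |b k| else 0 := by
      intro d _
      rw [hP, MvPolynomial.coeff_sum]
      refine (Finset.abs_sum_le_sum_abs _ _).trans (Finset.sum_le_sum fun k _ => ?_)
      rw [MvPolynomial.coeff_monomial]
      split_ifs
      · exact le_rfl
      · simp
    refine (Finset.sum_le_sum h5).trans ?_
    rw [Finset.sum_comm]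
    refine Finset.sum_le_sum fun k _ => ?_
    rw [Finset.sum_ite_eq]
    split_ifs
    · exact le_rfl
    · exact abs_nonneg _

theorem clos' (hC : S_CLOS) : ∃ h : ℕ, ∀ N : ℕ, 2 ≤ N → ∀ (ι κ : Type) [Fintype ι] [Fintype κ]
    (a : ι → ℂ) (b : κ → ℤ) (e : κ → ι → ℕ), Fintype.card ι ≤ N → (∀ i, RB N N (a i)) →
    (∀ k, ∑ i, e k i ≤ N) → ∑ k, |b k| ≤ (N : ℤ) →
    RB (tow h N) (tow h N) (∑ k, (b k : ℂ) * ∏ i, a i ^ e k i) := by
  classical
  obtain ⟨h, hh⟩ := hC
  refine ⟨h, fun N hN ι κ _ _ a b e h1 h2 h3 h4 => ?_⟩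
  let φ := Fintype.equivFin ι
  have hP := hh N hN (Fintype.card ι) (fun i => a (φ.symm i))
    (∑ k, MvPolynomial.monomial (Finsupp.equivFunOnFinite.symm (fun i => e k (φ.symm i))) (b k))
    h1 (fun i => h2 _) (sz_sum _ _ (fun k => ?_) h4)
  · convert hP using 1
    rw [map_sum]
    refine Finset.sum_congr rfl fun k _ => ?_
    rw [MvPolynomial.aeval_monomial, Finsupp.prod_fintype _ _ (fun i => pow_zero _)]
    congr 1
    rw [← Equiv.prod_comp φ.symm]
    rfl
  · rw [Finsupp.sum_fintype _ _ (fun i => rfl)]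
    refine le_trans (le_of_eq ?_) (h3 k)
    rw [← Equiv.sum_comp φ.symm]
    rfl

end Pool.Agent.P8H59.ET
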