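import Pool.Agent.P8H10.ET.StmD
import Pool.Agent.P8H59.ET.Clos

/-!
# Project ET, part ALG
-/

set_option autoImplicit false
set_option linter.all false

open Finset Pool.Agent.R347.LW
open scoped PeriodPair

namespace Pool.Agent.P8H59.ET

open Pool.Agent.P8H10.ET

theorem zero_of_den {i u : ℕ} (hi : i < u) (h : ((i : ℚ) / (u : ℚ)).den = 1) : i = 0 := by
  have hu : (0 : ℚ) < u := by exact_mod_cast (show 0 < u by omega)
  have h1 := (Rat.den_eq_one_iff _).mp h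
  have h2 : 0 ≤ (i : ℚ) / (u : ℚ) := by positivity
  have h3 : (i : ℚ) / (u : ℚ) < 1 := by rw [div_lt_one hu]; exact_mod_cast hi
  have h4 : ((i : ℚ) / (u : ℚ)).num = 0 := by
    have a : (0 : ℤ) ≤ ((i : ℚ) / (u : ℚ)).num := Rat.num_nonneg.mpr h2
    have b : ((i : ℚ) / (u : ℚ)).num < 1 := by
      have : ((((i : ℚ) / (u : ℚ)).num : ℤ) : ℚ) < 1 := by rw [h1]; exact h3
      exact_mod_cast this
    omega
  rw [h4] at h1
  have h5 : (i : ℚ) / (u : ℚ) = 0 := by rw [← h1]; simp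
  rcases div_eq_zero_iff.mp h5 with h6 | h6
  · exact_mod_cast h6
  · exact absurd h6 hu.ne'

theorem t_notMem (L : PeriodPair) {u v i j : ℕ} (hi : i < u) (hj : j < v)
    (hij : i ≠ 0 ∨ j ≠ 0) : (i : ℂ) * L.ω₁ / u + (j : ℂ) * L.ω₂ / v ∉ L.lattice := by
  intro h
  have e : (i : ℂ) * L.ω₁ / u + (j : ℂ) * L.ω₂ / v =
      (((i : ℚ) / (u : ℚ) : ℚ) : ℂ) * L.ω₁ + (((j : ℚ) / (v : ℚ) : ℚ) : ℂ) * L.ω₂ := by
    push_cast; ring
  rw [e, PeriodPair.mul_ω₁_add_mul_ω₂_mem_lattice] at h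
  rcases hij with h0 | h0
  · exact h0 (zero_of_den hi h.1)
  · exact h0 (zero_of_den hj h.2)

theorem mul_t_mem (L : PeriodPair) {u v i j : ℕ} (hu : 1 ≤ u) (hv : 1 ≤ v) :
    ((u * v : ℕ) : ℂ) * ((i : ℂ) * L.ω₁ / u + (j : ℂ) * L.ω₂ / v) ∈ L.lattice := by
  rw [PeriodPair.mem_lattice]
  refine ⟨(i * v : ℕ), (j * u : ℕ), ?_⟩
  have hu' : (u : ℂ) ≠ 0 := by exact_mod_cast (show u ≠ 0 by omega)
  have hv' : (v : ℂ) ≠ 0 := by exact_mod_cast (show v ≠ 0 by omega)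
  push_cast
  field_simp

theorem sq_le_tow (Y : ℕ) : Y * Y ≤ tow 2 Y := by
  rw [tow_succ, tow_succ, tow_zero]
  have h1 : Y ≤ 2 ^ Y := Nat.lt_two_pow_self.le
  have h2 := two_mul_le_pow Y
  calc Y * Y ≤ 2 ^ Y * 2 ^ Y := Nat.mul_le_mul h1 h1
    _ = 2 ^ (2 * Y) := by rw [two_mul, pow_add]
    _ ≤ _ := Nat.pow_le_pow_right (by norm_num) h2

/-- the bound for the terms -/
def TB (L : PeriodPair) (r : ℕ) : Prop := ∃ h : ℕ, ∀ Y : ℕ, 2 ≤ Y → ∀ u v i j : ℕ, 1 ≤ u → u ≤ Y →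
  1 ≤ v → v ≤ Y → i < u → j < v →
    RB (tow h Y) (tow h Y) (L.sumInvPow ((i : ℂ) * L.ω₁ / u + (j : ℂ) * L.ω₂ / v) r)

theorem tb_aux (hT : S_TOR) (L : PeriodPair) (hg2 : IsAlgebraic ℚ L.g₂) (hg3 : IsAlgebraic ℚ L.g₃) :
    ∃ h : ℕ, ∀ Y : ℕ, 2 ≤ Y → ∀ u v i j : ℕ, 1 ≤ u → u ≤ Y → 1 ≤ v → v ≤ Y → i < u → j < v →
      (i ≠ 0 ∨ j ≠ 0) →
      RB (tow h Y) (tow h Y) (℘[L] ((i : ℂ) * L.ω₁ / u + (j : ℂ) * L.ω₂ / v)) := by
  obtain ⟨h, hh⟩ := hT L hg2 hg3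
  refine ⟨h + 2, fun Y hY u v i j hu huY hv hvY hi hj hij => ?_⟩
  have huv : 2 ≤ u * v := by
    rcases hij with h0 | h0
    · have : 2 ≤ u := by omega
      nlinarith
    · have : 2 ≤ v := by omega
      nlinarith
  have h1 := hh (u * v) huv _ (t_notMem L hi hj hij) (mul_t_mem L hu hv)
  have h2 : tow h (u * v) ≤ tow (h + 2) Y := by
    rw [← tow_tow]
    exact tow_mono_right _ ((Nat.mul_le_mul huY hvY).trans (sq_le_tow Y))
  exact RB_mono h1 h2 h2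

theorem zero_term (L : PeriodPair) (u v : ℕ) (r : ℕ) :
    L.sumInvPow (((0 : ℕ) : ℂ) * L.ω₁ / u + ((0 : ℕ) : ℂ) * L.ω₂ / v) r = L.G r := by
  rw [← PeriodPair.sumInvPow_zero]
  congr 1
  simp

theorem tb4 (hC : S_CLOS) (hT : S_TOR) (hW : S_WP) (L : PeriodPair) (hg2 : IsAlgebraic ℚ L.g₂)
    (hg3 : IsAlgebraic ℚ L.g₃) : TB L 4 := by
  obtain ⟨h0, hcl⟩ := clos' hC
  obtain ⟨h1, ht⟩ := tb_aux hT L hg2 hg3
  obtain ⟨m2, hm2⟩ := exists_RB hg2
  obtain ⟨m12, hm12⟩ := exists_RB (isAlgebraic_natCast (R := ℚ) (A := ℂ) 12).inv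
  have hG : IsAlgebraic ℚ (L.G 4) := by
    have : L.G 4 = L.g₂ * (((60 : ℕ) : ℂ))⁻¹ := by
      unfold PeriodPair.g₂; push_cast; ring
    rw [this]
    exact hg2.mul (isAlgebraic_natCast (R := ℚ) (A := ℂ) 60).inv
  obtain ⟨mG, hmG⟩ := exists_RB hG
  obtain ⟨H, hH⟩ : ∃ H, H = h1 + (m2 + m12 + 4) := ⟨_, rfl⟩
  refine ⟨(h0 + H) + mG, fun Y hY u v i j hu huY hv hvY hi hj => ?_⟩
  by_cases hij : i ≠ 0 ∨ j ≠ 0
  · have a1 := ht Y hY u v i j hu huY hv hvY hi hj hij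
    have a2 := (hW L _ (t_notMem L hi hj hij)).1
    have hN := le_tow' H Y
    have a3 := hcl (tow H Y) (by omega) (Fin 3) (Fin 2)
      ![℘[L] ((i : ℂ) * L.ω₁ / u + (j : ℂ) * L.ω₂ / v), L.g₂, (((12 : ℕ) : ℂ))⁻¹] ![1, -1]
      ![![2, 0, 0], ![0, 1, 1]] (by rw [Fintype.card_fin]; omega) (by
        intro k
        fin_cases k
        · exact RB_up a1 (by omega)
        · exact RB_mono hm2 (by omega) (by omega)
        · exact RB_mono hm12 (by omega) (by omega)) (by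
        intro k
        fin_cases k
        · simp [Fin.sum_univ_three]; omega
        · simp [Fin.sum_univ_three]; omega) (by
        simp [Fin.sum_univ_two]
        have : (4 : ℤ) ≤ tow H Y := by exact_mod_cast (show 4 ≤ tow H Y by omega)
        linarith)
    rw [tow_tow] at a3
    refine RB_up ?_ (Nat.le_add_right _ _)
    convert a3 using 1
    rw [a2]
    simp [Fin.sum_univ_two, Fin.prod_univ_three]
    ring
  · push Not at hij
    obtain ⟨rfl, rfl⟩ := hij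
    rw [zero_term]
    exact RB_up (RB_const hmG Y) (Nat.le_add_left _ _)

theorem tb6 (hC : S_CLOS) (hT : S_TOR) (hW : S_WP) (L : PeriodPair) (hg2 : IsAlgebraic ℚ L.g₂)
    (hg3 : IsAlgebraic ℚ L.g₃) : TB L 6 := by
  obtain ⟨h0, hcl⟩ := clos' hC
  obtain ⟨h1, ht⟩ := tb_aux hT L hg2 hg3
  obtain ⟨m2, hm2⟩ := exists_RB hg2
  obtain ⟨m3, hm3⟩ := exists_RB hg3
  obtain ⟨m20, hm20⟩ := exists_RB (isAlgebraic_natCast (R := ℚ) (A := ℂ) 20).inv
  have hG : IsAlgebraic ℚ (L.G 6) := by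
    have : L.G 6 = L.g₃ * (((140 : ℕ) : ℂ))⁻¹ := by
      unfold PeriodPair.g₃; push_cast; ring
    rw [this]
    exact hg3.mul (isAlgebraic_natCast (R := ℚ) (A := ℂ) 140).inv
  obtain ⟨mG, hmG⟩ := exists_RB hG
  obtain ⟨H, hH⟩ : ∃ H, H = h1 + (m2 + m3 + m20 + 6) := ⟨_, rfl⟩
  refine ⟨(h0 + H) + mG, fun Y hY u v i j hu huY hv hvY hi hj => ?_⟩
  by_cases hij : i ≠ 0 ∨ j ≠ 0
  · have a1 := ht Y hY u v i j hu huY hv hvY hi hj hij
    have a2 := (hW L _ (t_notMem L hi hj hij)).2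
    have hN := le_tow' H Y
    have a3 := hcl (tow H Y) (by omega) (Fin 4) (Fin 3)
      ![℘[L] ((i : ℂ) * L.ω₁ / u + (j : ℂ) * L.ω₂ / v), L.g₂, L.g₃, (((20 : ℕ) : ℂ))⁻¹]
      ![1, -3, -2]
      ![![3, 0, 0, 0], ![1, 1, 0, 1], ![0, 0, 1, 1]] (by rw [Fintype.card_fin]; omega) (by
        intro k
        fin_cases k
        · exact RB_up a1 (by omega)
        · exact RB_mono hm2 (by omega) (by omega)
        · exact RB_mono hm3 (by omega) (by omega)
        · exact RB_mono hm20 (by omega) (by omega)) (by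
        intro k
        fin_cases k
        · simp [Fin.sum_univ_four]; omega
        · simp [Fin.sum_univ_four]; omega
        · simp [Fin.sum_univ_four]; omega) (by
        simp [Fin.sum_univ_three]
        have : (6 : ℤ) ≤ tow H Y := by exact_mod_cast (show 6 ≤ tow H Y by omega)
        linarith)
    rw [tow_tow] at a3
    refine RB_up ?_ (Nat.le_add_right _ _)
    convert a3 using 1
    rw [a2]
    simp [Fin.sum_univ_three, Fin.prod_univ_four]
    ring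
  · push Not at hij
    obtain ⟨rfl, rfl⟩ := hij
    rw [zero_term]
    exact RB_up (RB_const hmG Y) (Nat.le_add_left _ _)

theorem RB_inv {u N : ℕ} (hu : 1 ≤ u) (huN : u ≤ N) : RB N N ((u : ℂ))⁻¹ := by
  have hu' : (u : ℂ) ≠ 0 := by exact_mod_cast (show u ≠ 0 by omega)
  refine ⟨Polynomial.C (u : ℤ) * Polynomial.X - 1, ?_, ?_, ?_, ?_⟩
  · intro h
    have := congrArg (fun p : Polynomial ℤ => p.coeff 0) h
    simp at this
  · refine (Polynomial.natDegree_sub_le _ _).trans ?_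
    rw [Polynomial.natDegree_one]
    have : (Polynomial.C (u : ℤ) * Polynomial.X : Polynomial ℤ).natDegree ≤ 1 :=
      (Polynomial.natDegree_C_mul_le _ _).trans Polynomial.natDegree_X_le
    omega
  · intro n
    rw [Polynomial.coeff_sub, Polynomial.coeff_C_mul, Polynomial.coeff_X, Polynomial.coeff_one]
    have hN : (u : ℤ) ≤ N := by exact_mod_cast huN
    have hu1 : (1 : ℤ) ≤ u := by exact_mod_cast hu
    rcases Nat.eq_zero_or_pos n with rfl | hn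
    · simp; linarith
    · rcases Nat.eq_or_lt_of_le hn with h1 | h1
      · have : n = 1 := by omega
        subst this
        simp; linarith
      · rw [if_neg (by omega), if_neg (by omega)]
        simp
  · simp
    rw [mul_inv_cancel₀ hu']
    ring

theorem step2 (hC : S_CLOS) (hS : S_SUM) (L : PeriodPair) (r : ℕ) (hr : 2 < r) (hre : Even r)
    (hB : TB L r) : ∃ h : ℕ, ∀ Y : ℕ, 2 ≤ Y → ∀ (u v : ℕ) (L' : PeriodPair), 1 ≤ u → u ≤ Y →
    1 ≤ v → v ≤ Y → L'.ω₁ = L.ω₁ → L'.ω₂ = (u / v : ℂ) * L.ω₂ →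
    RB (tow h Y) (tow h Y) (L'.G r) := by
  classical
  obtain ⟨h0, hcl⟩ := clos' hC
  obtain ⟨h1, hB⟩ := hB
  obtain ⟨H, hH⟩ : ∃ H, H = h1 + (r + 3) := ⟨_, rfl⟩
  refine ⟨h0 + H, fun Y hY u v L' hu huY hv hvY e1 e2 => ?_⟩
  have hN := le_tow' H Y
  have hYN : Y ≤ tow H Y := (Nat.le_add_right Y H).trans (le_tow H Y)
  have huv : u * v + 1 ≤ tow H Y := by
    have h2 : u * v ≤ tow 2 Y := (Nat.mul_le_mul huY hvY).trans (sq_le_tow Y)
    have h3 := tow_lt_succ 2 Y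
    have h4 : tow (2 + 1) Y ≤ tow H Y := tow_mono_left (by omega) Y
    omega
  have a3 := hcl (tow H Y) (by omega) (Option (Fin u × Fin v)) (Fin u × Fin v)
    (fun x => x.elim ((u : ℂ))⁻¹ (fun p =>
      L.sumInvPow (((p.1 : ℕ) : ℂ) * L.ω₁ / u + ((p.2 : ℕ) : ℂ) * L.ω₂ / v) r))
    (fun _ => 1) (fun p x => x.elim r (fun q => if q = p then 1 else 0))
    (by rw [Fintype.card_option, Fintype.card_prod, Fintype.card_fin, Fintype.card_fin]; exact huv)
    (by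
      rintro (_ | p)
      · exact RB_inv hu (huY.trans hYN)
      · exact RB_up (hB Y hY u v p.1 p.2 hu huY hv hvY p.1.isLt p.2.isLt) (by omega)) (by
      intro p
      rw [Fintype.sum_option]
      simp only [Option.elim]
      rw [Finset.sum_ite_eq' Finset.univ p]
      simp
      omega) (by
      simp
      exact_mod_cast (show u * v ≤ tow H Y by omega))
  rw [tow_tow] at a3
  convert a3 using 1
  have hu' : (u : ℂ) ≠ 0 := by exact_mod_cast (show u ≠ 0 by omega)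
  have e3 := hS L L' u v (by omega) (by omega) e1 e2 r hr hre
  have e4 : L'.G r = ((u : ℂ)⁻¹) ^ r * ((u : ℂ) ^ r * L'.G r) := by
    rw [← mul_assoc, ← mul_pow, inv_mul_cancel₀ hu', one_pow, one_mul]
  rw [e4, e3, Finset.sum_range, Fintype.sum_prod_type, Finset.mul_sum]
  refine Finset.sum_congr rfl fun i _ => ?_
  rw [Finset.sum_range, Finset.mul_sum]
  refine Finset.sum_congr rfl fun j _ => ?_
  rw [Fintype.prod_option]
  simp only [Option.elim, pow_ite, pow_one, pow_zero]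
  rw [Finset.prod_ite_eq' Finset.univ (i, j)]
  simp

/-- **ALG** -/
theorem alg (hC : S_CLOS) (_ : S_ROOT) (hT : S_TOR) (hS : S_SUM) (hW : S_WP) : S_ALG := by
  intro L hg2 hg3
  obtain ⟨a, ha⟩ := step2 hC hS L 4 (by norm_num) (by decide) (tb4 hC hT hW L hg2 hg3)
  obtain ⟨b, hb⟩ := step2 hC hS L 6 (by norm_num) (by decide) (tb6 hC hT hW L hg2 hg3)
  refine ⟨a + b, fun Y hY u v L' hu huY hv hvY e1 e2 => ⟨?_, ?_⟩⟩
  · exact RB_up (ha Y hY u v L' hu huY hv hvY e1 e2) (Nat.le_add_right _ _)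
  · exact RB_up (hb Y hY u v L' hu huY hv hvY e1 e2) (Nat.le_add_left _ _)

end Pool.Agent.P8H59.ET
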