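import Pool.Agent.P8H10.ET.StmB
import Pool.Agent.P8H10.ET.StmD
import Pool.Agent.P8H59.ET.Clos

/-!
# Project ET, part TOR
-/

set_option autoImplicit false
set_option linter.all false

open Finset Pool.Agent.R347.LW
open scoped PeriodPair

namespace Pool.Agent.P8H59.ET

open Pool.Agent.P8H10.ET

theorem wp'_half {L : PeriodPair} {t : ℂ} (h : 2 * t ∈ L.lattice) : ℘'[L] t = 0 := by
  have h1 := L.derivWeierstrassP_neg t
  have h2 := L.derivWeierstrassP_sub_coe t ⟨2 * t, h⟩
  have h3 : t - ((⟨2 * t, h⟩ : L.lattice) : ℂ) = -t := by simp only; ring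
  rw [h3, h1] at h2
  have h4 : (2 : ℂ) * ℘'[L] t = 0 := by linear_combination -h2
  rcases mul_eq_zero.mp h4 with h5 | h5
  · norm_num at h5
  · exact h5

/-- the coefficients of a polynomial in the first variable -/
noncomputable def cf (F : MvPolynomial (Fin 3) ℤ) (x y : ℂ) (j : ℕ) : ℂ :=
  ∑ d ∈ F.support.filter (fun d => d 0 = j), ((F.coeff d : ℤ) : ℂ) * (x ^ d 1 * y ^ d 2)

theorem aeval_cf (F : MvPolynomial (Fin 3) ℤ) {N : ℕ} (hN : F.totalDegree ≤ N) (z x y : ℂ) :
    MvPolynomial.aeval ![z, x, y] F = ∑ j ∈ range (N + 1), cf F x y j * z ^ j := by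
  classical
  rw [MvPolynomial.aeval_def, MvPolynomial.eval₂_eq']
  unfold cf
  rw [← Finset.sum_fiberwise_of_maps_to (s := F.support) (t := range (N + 1)) (g := fun d => d 0)]
  · refine Finset.sum_congr rfl fun j _ => ?_
    rw [Finset.sum_mul]
    refine Finset.sum_congr rfl fun d hd => ?_
    rw [Finset.mem_filter] at hd
    rw [Fin.prod_univ_three, ← hd.2]
    simp only [Matrix.cons_val_zero, Matrix.cons_val_one, Matrix.cons_val]
    have : (algebraMap ℤ ℂ) (MvPolynomial.coeff d F) = ((MvPolynomial.coeff d F : ℤ) : ℂ) := rfl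
    rw [this]
    ring
  · intro d hd
    rw [Finset.mem_range]
    have h1 := MvPolynomial.le_totalDegree hd
    rw [Finsupp.sum_fintype _ _ (fun i => rfl), Fin.sum_univ_three] at h1
    omega

/-- **TOR** -/
theorem tor (hD : S_DIV2) (hC : S_CLOS) (hR : S_ROOT) : S_TOR := by
  classical
  intro L hg2 hg3
  obtain ⟨c, hc⟩ := hD
  obtain ⟨h0, hcl⟩ := clos' hC
  obtain ⟨h1, hroot⟩ := hR
  obtain ⟨m2, hm2⟩ := exists_RB hg2
  obtain ⟨m3, hm3⟩ := exists_RB hg3
  obtain ⟨n2, hn2⟩ := exists_RB hg2.neg
  obtain ⟨n3, hn3⟩ := exists_RB hg3.neg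
  obtain ⟨p0, hp0⟩ := exists_RB (isAlgebraic_zero (R := ℚ) (A := ℂ))
  obtain ⟨p4, hp4⟩ := exists_RB (isAlgebraic_natCast (R := ℚ) (A := ℂ) 4)
  obtain ⟨A, hA⟩ : ∃ A, A = n2 + n3 + p0 + p4 + 3 := ⟨_, rfl⟩
  obtain ⟨B, hB⟩ : ∃ B, B = m2 + m3 + 2 := ⟨_, rfl⟩
  refine ⟨(h1 + A) + (h1 + (h0 + (3 + c + B))), fun m hm t ht hmt => ?_⟩
  by_cases h2t : 2 * t ∈ L.lattice
  · -- half periods
    have e1 := L.derivWeierstrassP_sq t ht
    rw [wp'_half h2t] at e1
    have e2 := hroot A (by omega) 3
      (fun j => if j = 0 then -L.g₃ else if j = 1 then -L.g₂ else if j = 3 then ((4 : ℕ) : ℂ) else 0)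
      (℘[L] t) (by omega) (by
        intro j _
        split_ifs
        · exact RB_mono hn3 (by omega) (by omega)
        · exact RB_mono hn2 (by omega) (by omega)
        · exact RB_mono hp4 (by omega) (by omega)
        · exact RB_mono hp0 (by omega) (by omega)) ⟨3, le_rfl, by norm_num⟩ (by
        rw [Finset.sum_range_succ, Finset.sum_range_succ, Finset.sum_range_succ,
          Finset.sum_range_one]
        norm_num
        linear_combination -e1)
    have e3 : tow h1 A ≤ tow (h1 + A) m := by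
      rw [← tow_tow]
      exact tow_mono_right _ (le_tow' _ _)
    exact RB_up (RB_mono e2 e3 e3) (Nat.le_add_right _ _)
  · obtain ⟨F, hF1, hF2, z, hz⟩ := hc L m (by omega)
    obtain ⟨N', hN'⟩ : ∃ N', N' = tow (3 + c + B) m := ⟨_, rfl⟩
    have hNN : tow 3 (m + c) ≤ N' := by
      rw [hN']
      calc tow 3 (m + c) ≤ tow 3 (tow c m) := tow_mono_right _ (le_tow c m)
        _ = tow (3 + c) m := tow_tow _ _ _
        _ ≤ _ := tow_mono_left (by omega) m
    have hBN : B ≤ N' := by
      have := le_tow' (3 + c + B) m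
      rw [hN']; omega
    have key : ∀ j, RB (tow h0 N') (tow h0 N') (cf F L.g₂ L.g₃ j) := by
      intro j
      have e1 := hcl N' (by omega) (Fin 2) (↥(F.support.filter (fun d => d 0 = j)))
        ![L.g₂, L.g₃] (fun d => F.coeff d.1) (fun d => ![d.1 1, d.1 2]) (by
          rw [Fintype.card_fin]; omega) (by
          intro i
          fin_cases i
          · exact RB_mono hm2 (by omega) (by omega)
          · exact RB_mono hm3 (by omega) (by omega)) (by
          intro d
          have h1 := MvPolynomial.le_totalDegree (Finset.mem_filter.mp d.2).1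
          rw [Finsupp.sum_fintype _ _ (fun i => rfl), Fin.sum_univ_three] at h1
          have h2 := hF1.1
          rw [Fin.sum_univ_two]
          simp only [Matrix.cons_val_zero, Matrix.cons_val_one]
          omega) (by
          rw [Finset.sum_coe_sort (F.support.filter (fun d => d 0 = j)) (fun d => |F.coeff d|)]
          refine (Finset.sum_le_sum_of_subset_of_nonneg (Finset.filter_subset _ _)
            (fun _ _ _ => abs_nonneg _)).trans (hF1.2.trans ?_)
          exact_mod_cast hNN)
      convert e1 using 1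
      unfold cf
      rw [← Finset.sum_coe_sort]
      refine Finset.sum_congr rfl fun d _ => ?_
      rw [Fin.prod_univ_two]
      simp only [Matrix.cons_val_zero, Matrix.cons_val_one]
    have hN2 : N' ≤ tow h0 N' := (Nat.le_add_right _ _).trans (le_tow h0 N')
    have e2 := hroot (tow h0 N') (by omega) (tow 3 (m + c)) (cf F L.g₂ L.g₃) (℘[L] t)
      (hNN.trans hN2) (fun j _ => key j) (by
        by_contra hcon
        push Not at hcon
        apply hz
        rw [aeval_cf F hF1.1]
        refine Finset.sum_eq_zero fun j hj => ?_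
        rw [hcon j (by rw [Finset.mem_range] at hj; omega), zero_mul]) (by
        rw [← aeval_cf F hF1.1]
        exact hF2 t hmt h2t)
    rw [hN', tow_tow, tow_tow] at e2
    exact RB_up e2 (by omega)

end Pool.Agent.P8H59.ET
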